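import Pool.Agent.Q219.DG.Fac

/-!
# The part of the hypotheses which is used
-/

set_option autoImplicit false

namespace Pool.Agent.Q219.DU

open Polynomial Pool.Agent.Q173.WD Pool.Agent.Q219.DG

/-- The properties of the cohomology of a class of varieties which are used. -/
structure Core {p : ℕ} {W : Type} [Group W] {C : Type*} (T : Theory p W C) [TopologicalSpace W]
    (ν : W →* Multiplicative ℤ) (E : C → C) : Prop where
  rep : ∀ X ℓ n, (T.H X ℓ n).IsRep ν p
  inertia : IsOpen (ν.ker : Set W)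
  kunneth : ∀ X ℓ n, (T.H (E X) ℓ n).IsIso
    ((T.H X ℓ n).sum (((T.H X ℓ (n - 1)).curve ν p).sum ((T.H X ℓ (n - 2)).tate ν p)))
  int : ∀ X ℓ n w, 0 < dg ν w → IntCoeff ((T.H X ℓ n).ρ w).charpoly
  finite : ∀ X ℓ n, (Set.range fun g : ν.ker => (T.H X ℓ n).ρ g).Finite

section

variable {p : ℕ} [hp : Fact p.Prime] {W : Type} [Group W] [TopologicalSpace W] {ν : W →* Multiplicative ℤ}
  {C : Type*} {T : Theory p W C} {E : C → C}

lemma J_zero (hT : Core T ν E) {U : Subgroup W} {w : W} (hw : w ∈ U) (X : C) : J T ν U w 0 X := by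
  intro n
  refine RatSame.congr (fun ℓ => ?_) ratSame_one
  exact ((hT.rep X ℓ n).pol_zero hw).symm

lemma tate_same (hT : Core T ν E) {U : Subgroup W} {w : W} (hw : w ∈ U) {m : ℕ} {X : C} {n : ℤ}
    (h : RatSame (fun ℓ => (T.H X ℓ n).pol ν U w m)) :
    RatSame (fun ℓ => ((T.H X ℓ n).tate ν p).pol ν U w m) := by
  refine RatSame.congr (fun ℓ => ?_) (h.scale (dg ν w))
  exact ((hT.rep X ℓ n).tate_pol hw m).symm

lemma kunneth_pol (hT : Core T ν E) {U : Subgroup W} {w : W} (hw : w ∈ U) (k : ℕ) (X : C) (ℓ : Aux p) (n : ℤ) :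
    (T.H (E X) ℓ n).pol ν U w (k + 1) = (T.H X ℓ (n - 1)).pol ν U w (k + 2) *
      (((T.H X ℓ (n - 1)).tate ν p).pol ν U w k * ((T.H X ℓ n).pol ν U w (k + 1) *
        ((T.H X ℓ (n - 2)).tate ν p).pol ν U w (k + 1))) := by
  have r0 := hT.rep X ℓ n
  have r1 := hT.rep X ℓ (n - 1)
  have r2 := hT.rep X ℓ (n - 2)
  rw [(hT.kunneth X ℓ n).pol (hT.rep (E X) ℓ n) (r0.sum (r1.curve.sum r2.tate)) hw,
    r0.sum_pol (r1.curve.sum r2.tate) hw, r1.curve.sum_pol r2.tate hw, r1.curve_pol hw]
  ring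

lemma J_up (hT : Core T ν E) {U : Subgroup W} {w : W} (hw : w ∈ U) (k : ℕ) (X : C)
    (h : J T ν U w (k + 1) (E X)) (h1 : J T ν U w (k + 1) X) (h0 : J T ν U w k X) : J T ν U w (k + 2) X := by
  intro n
  have h2 := h (n + 1)
  have h3 : RatSame (fun ℓ => (T.H X ℓ n).pol ν U w (k + 2) * (((T.H X ℓ n).tate ν p).pol ν U w k *
      ((T.H X ℓ (n + 1)).pol ν U w (k + 1) * ((T.H X ℓ (n - 1)).tate ν p).pol ν U w (k + 1)))) := by
    refine RatSame.congr (fun ℓ => ?_) h2
    have h4 := kunneth_pol hT hw k X ℓ (n + 1)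
    rw [show n + 1 - 1 = n by ring, show n + 1 - 2 = n - 1 by ring] at h4
    exact h4
  apply h3.of_mul ((tate_same hT hw (h0 n)).mul ((h1 (n + 1)).mul (tate_same hT hw (h1 (n - 1)))))
  intro ℓ
  exact ((hT.rep X ℓ n).tate.pol_monic hw k).mul (((hT.rep X ℓ (n + 1)).pol_monic hw (k + 1)).mul
    ((hT.rep X ℓ (n - 1)).tate.pol_monic hw (k + 1)))

lemma J_down (hT : Core T ν E) {U : Subgroup W} {w : W} (hw : w ∈ U) (k : ℕ) (X : C)
    (h2 : J T ν U w (k + 2) X) (h1 : J T ν U w (k + 1) X) (h0 : J T ν U w k X) : J T ν U w (k + 1) (E X) := by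
  intro n
  refine RatSame.congr (fun ℓ => ?_)
    ((h2 (n - 1)).mul ((tate_same hT hw (h0 (n - 1))).mul ((h1 n).mul (tate_same hT hw (h1 (n - 2))))))
  exact (kunneth_pol hT hw k X ℓ n).symm

/-- **One variety, one field.** -/
theorem stack_iff (hT : Core T ν E) {U : Subgroup W} {w : W} (hw : w ∈ U) (X : C) (K : ℕ) :
    (∀ k ≤ K, J T ν U w 1 (stack E X k)) ↔ ∀ m ≤ K + 1, J T ν U w m X := by
  constructor
  · intro h
    have h1 : ∀ m k, k + m ≤ K + 1 → J T ν U w m (stack E X k) := by
      intro m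
      induction m using Nat.strong_induction_on with
      | _ m ih =>
        intro k hk
        rcases m with _ | m
        · exact J_zero hT hw _
        rcases m with _ | m
        · exact h k (by omega)
        · exact J_up hT hw m (stack E X k) (ih (m + 1) (by omega) (k + 1) (by omega))
            (ih (m + 1) (by omega) k (by omega)) (ih m (by omega) k (by omega))
    intro m hm
    exact h1 m 0 (by omega)
  · intro h
    have h1 : ∀ k m, k + m ≤ K + 1 → J T ν U w m (stack E X k) := by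
      intro k
      induction k with
      | zero =>
        intro m hm
        exact h m (by omega)
      | succ k ih =>
        intro m hm
        rcases m with _ | m
        · exact J_zero hT hw _
        · exact J_down hT hw m (stack E X k) (ih (m + 2) (by omega)) (ih (m + 1) (by omega)) (ih m (by omega))
    intro k hk
    exact h1 k 1 (by omega)

/-- integral and rational version of the independence -/
lemma good_iff (hT : Core T ν E) {U : Subgroup W} {w : W} (hw : w ∈ U) (h0 : 0 < dg ν w) (m : ℕ) (X : C) :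
    T.Good ν U w m X ↔ J T ν U w m X := by
  constructor
  · intro h n
    exact (RatSame.reverse (fun ℓ => (hT.rep X ℓ n).pol_coeff hw m)).1 (h n).rat
  · intro h n
    refine RatSame.same ((RatSame.reverse (fun ℓ => (hT.rep X ℓ n).pol_coeff hw m)).2 (h n)) ?_
    intro ℓ i
    exact integral_reverse (integral_resChar _ ((hT.rep X ℓ n).inv_map hw m) (hT.int X ℓ n w h0)) i

end

end Pool.Agent.Q219.DU
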