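import Pool.Agent.Q219.DU.Fac

/-!
# The traces of the elements of the Weil group
-/

set_option autoImplicit false
set_option linter.unusedSectionVars false

open Polynomial

namespace Pool.Agent.Q219.DU

open Pool.Agent.Q173.WD Pool.Agent.Q219.DG
open Pool.Agent.Q219.WD (trOn trOn_eq trOn_top exists_common)

section family

variable {p : ℕ} [hp : Fact p.Prime] {W : Type} [Group W] [TopologicalSpace W]
  {ν : W →* Multiplicative ℤ} {C : Type*} {T : Theory p W C} {E : C → C} {F : W}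

/-- the characteristic polynomials of all elements of positive degree on the kernels of the powers of `N` -/
theorem elements [IsTopologicalGroup W] (hT : Core T ν E) (X : C)
    (h : ∀ (U : Subgroup W) (w : W), IsField ν U → IsFrob ν U w → ∀ m, J T ν U w m X)
    {w : W} (h0 : 0 < dg ν w) (m : ℕ) (n : ℤ) :
    RatSame (fun ℓ => (T.H X ℓ n).char w m) := by
  apply RatSame.of_pairs
  intro ℓ ℓ'
  have r := hT.rep X ℓ n
  have r' := hT.rep X ℓ' n
  obtain ⟨J₁, h1, h2, h3⟩ := r.smooth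
  obtain ⟨J₂, h1', h2', h3'⟩ := r'.smooth
  -- the elements of the inertia group which act trivially on both representations
  set I : Subgroup W :=
    { carrier := {g | g ∈ ν.ker ∧ (∀ x, (T.H X ℓ n).ρ g x = x) ∧ ∀ x, (T.H X ℓ' n).ρ g x = x}
      mul_mem' := by
        rintro a b ⟨a1, a2, a3⟩ ⟨b1, b2, b3⟩
        exact ⟨ν.ker.mul_mem a1 b1, fun x => by rw [r.mul', b2, a2], fun x => by rw [r'.mul', b3, a3]⟩
      one_mem' := ⟨ν.ker.one_mem, fun x => r.one' x, fun x => r'.one' x⟩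
      inv_mem' := by
        rintro a ⟨a1, a2, a3⟩
        refine ⟨ν.ker.inv_mem a1, fun x => ?_, fun x => ?_⟩
        · have := r.rho_inv a x
          rwa [a2] at this
        · have := r'.rho_inv a x
          rwa [a3] at this } with hI
  have hmemI : ∀ g, g ∈ I ↔ g ∈ ν.ker ∧ (∀ x, (T.H X ℓ n).ρ g x = x) ∧ ∀ x, (T.H X ℓ' n).ρ g x = x :=
    fun g => Iff.rfl
  have hN : I.Normal := by
    refine ⟨fun g hg b => ?_⟩
    rw [hmemI] at hg ⊢
    obtain ⟨g1, g2, g3⟩ := hg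
    refine ⟨ν.normal_ker.conj_mem g g1 b, fun x => ?_, fun x => ?_⟩
    · rw [r.mul', r.mul', g2, ← r.mul', mul_inv_cancel, r.one']
    · rw [r'.mul', r'.mul', g3, ← r'.mul', mul_inv_cancel, r'.one']
  have hIo : IsOpen (I : Set W) := by
    refine Subgroup.isOpen_mono (H₁ := J₁ ⊓ J₂) ?_ (by
      rw [Subgroup.coe_inf]
      exact h1.inter h1')
    intro g hg
    exact ⟨h2 hg.1, h3 g hg.1, h3' g hg.2⟩
  set U : Subgroup W := Subgroup.zpowers w ⊔ I with hU
  have hwU : w ∈ U := (le_sup_left : Subgroup.zpowers w ≤ U) (Subgroup.mem_zpowers w)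
  have hmem : ∀ u ∈ U, ∃ a : ℤ, ∃ i ∈ I, u = w ^ a * i := by
    intro u hu
    rw [hU, ← SetLike.mem_coe, Subgroup.mul_normal] at hu
    obtain ⟨z, hz, i, hi, rfl⟩ := Set.mem_mul.1 hu
    obtain ⟨a, rfl⟩ := Subgroup.mem_zpowers_iff.1 hz
    exact ⟨a, i, hi, rfl⟩
  have hUo : IsOpen (U : Set W) := Subgroup.isOpen_mono (le_sup_right : I ≤ U) hIo
  have hUf : IsField ν U := ⟨hUo, w, hwU, h0⟩
  have hUw : IsFrob ν U w := by
    refine ⟨hwU, h0, fun u hu hu0 => ?_⟩
    obtain ⟨a, i, hi, rfl⟩ := hmem u hu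
    rw [dg_mul, dg_zpow, dg_eq_zero.2 ((hmemI i).1 hi).1, add_zero] at hu0 ⊢
    have ha : 0 < a := by
      by_contra hc
      have := mul_nonpos_of_nonpos_of_nonneg (show a ≤ 0 by omega) h0.le
      omega
    nlinarith
  obtain ⟨R, hR⟩ := h U w hUf hUw m n
  refine ⟨R, ?_, ?_⟩
  · rw [← char_eq r h0 hwU (I := I) (fun i hi => ⟨((hmemI i).1 hi).1, ((hmemI i).1 hi).2.1⟩) hmem]
    exact hR ℓ
  · rw [← char_eq r' h0 hwU (I := I) (fun i hi => ⟨((hmemI i).1 hi).1, ((hmemI i).1 hi).2.2⟩) hmem]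
    exact hR ℓ'

/-- The independence over all finite extensions implies the independence of the traces. -/
theorem sameTraces_of_good [IsTopologicalGroup W] (h : Core T ν E) (X : C)
    (hQ : ∀ (k : ℕ) (U : Subgroup W) (w : W), IsField ν U → IsFrob ν U w →
      T.Good ν U w 1 (stack E X k)) : SameTraces T ν X := by
  intro n w hw
  have h1 : ∀ (U : Subgroup W) (w : W), IsField ν U → IsFrob ν U w → ∀ m, J T ν U w m X :=
    fun U w hU hf m => (stack_iff h hf.1 X m).1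
      (fun k _ => (good_iff h hf.1 hf.2.1 1 _).1 (hQ k U w hU hf)) m (by omega)
  have h2 : ∃ q : ℚ, ∀ ℓ : Aux p, tr (T.H X ℓ n) w = algebraMap ℚ (Ql ℓ) q := by
    refine exists_common (fun ℓ : Aux p => tr (T.H X ℓ n) w) fun ℓ₀ ℓ => ?_
    obtain ⟨d₀, hd₀⟩ := nil_of_rep (h.rep X ℓ₀ n)
    obtain ⟨d₁, hd₁⟩ := nil_of_rep (h.rep X ℓ n)
    have e₀ : ((T.H X ℓ₀ n).N : Module.End _ _) ^ (d₀ + d₁) = 0 := by rw [pow_add, hd₀, zero_mul]
    have e₁ : ((T.H X ℓ n).N : Module.End _ _) ^ (d₀ + d₁) = 0 := by rw [pow_add, hd₁, mul_zero]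
    obtain ⟨R, hR⟩ := elements h X h1 hw (d₀ + d₁) n
    have key : ∀ ℓ' : Aux p, ((T.H X ℓ' n).N : Module.End _ _) ^ (d₀ + d₁) = 0 →
        tr (T.H X ℓ' n) w = algebraMap ℚ (Ql ℓ') (-R.nextCoeff) := by
      intro ℓ' e
      have r := h.rep X ℓ' n
      have h3 : (T.H X ℓ' n).char w (d₀ + d₁) = R.map (Rat.castHom _) := hR ℓ'
      unfold Dat.char at h3
      rw [resChar_eq (r.ker_map w (d₀ + d₁))] at h3
      unfold tr
      rw [← trOn_top (W := LinearMap.ker ((T.H X ℓ' n).N ^ (d₀ + d₁))) (by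
        rw [e, LinearMap.ker_zero]), trOn_eq (r.ker_map w (d₀ + d₁)), trace_nextCoeff, h3,
        nextCoeff_map (RingHom.injective _), map_neg]
      congr 1
    exact ⟨_, key ℓ₀ e₀, key ℓ e₁⟩
  obtain ⟨q, hq⟩ := h2
  exact ⟨q, fun ℓ => by
    unfold IsRat
    rw [hq, eq_ratCast]⟩

end family

end Pool.Agent.Q219.DU
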