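import Pool.Agent.Q219.DU.Two

/-!
# The degrees of the Euler factors
-/

set_option autoImplicit false
set_option linter.unusedSectionVars false

open Polynomial

namespace Pool.Agent.Q219.DU

open Pool.Agent.Q173.WD Pool.Agent.Q219.DG

section family

variable {p : ℕ} [hp : Fact p.Prime] {W : Type} [Group W] [TopologicalSpace W]
  {ν : W →* Multiplicative ℤ} {C : Type*} {T : Theory p W C} {E : C → C} {F : W}

/-- the Künneth formula for the dimensions -/
lemma kunneth_dim (hT : Core T ν E) (U : Subgroup W) (k : ℕ) (X : C) (ℓ : Aux p) (n : ℤ) :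
    (T.H (E X) ℓ n).invDim ν U (k + 1) = (T.H X ℓ (n - 1)).invDim ν U (k + 2) +
      ((T.H X ℓ (n - 1)).invDim ν U k + ((T.H X ℓ n).invDim ν U (k + 1) +
        (T.H X ℓ (n - 2)).invDim ν U (k + 1))) := by
  have h1 : (1 : W) ∈ U := U.one_mem
  have h2 := congrArg natDegree (kunneth_pol hT h1 k X ℓ n)
  have r0 := hT.rep X ℓ n
  have r1 := hT.rep X ℓ (n - 1)
  have r2 := hT.rep X ℓ (n - 2)
  rw [(r1.pol_monic h1 _).natDegree_mul ((r1.tate.pol_monic h1 _).mul ((r0.pol_monic h1 _).mul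
      (r2.tate.pol_monic h1 _))), (r1.tate.pol_monic h1 _).natDegree_mul
      ((r0.pol_monic h1 _).mul (r2.tate.pol_monic h1 _)), (r0.pol_monic h1 _).natDegree_mul
      (r2.tate.pol_monic h1 _), r1.tate_pol h1, r2.tate_pol h1, natDegree_scaleRoots,
    natDegree_scaleRoots, pol_natDegree (hT.rep (E X) ℓ n) h1, pol_natDegree r0 h1,
    pol_natDegree r1 h1, pol_natDegree r1 h1, pol_natDegree r2 h1] at h2
  exact h2

/-- the inequalities are inherited by the products with powers of `E` -/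
lemma stack_mono (hT : Core T ν E) {U : Subgroup W} {X : C} {ℓ₀ ℓ : Aux p} {a b : ℤ}
    (hbase : ∀ n, a ≤ n → n ≤ b → ∀ m, (T.H X ℓ₀ n).invDim ν U m ≤ (T.H X ℓ n).invDim ν U m)
    (i : ℕ) : ∀ (m : ℕ) (n : ℤ), a ≤ n - 2 * i → n ≤ b →
      (T.H (stack E X i) ℓ₀ n).invDim ν U m ≤ (T.H (stack E X i) ℓ n).invDim ν U m := by
  induction i with
  | zero =>
    intro m n h1 h2
    exact hbase n (by push_cast at h1; omega) h2 m
  | succ i ih =>
    intro m n h1 h2
    push_cast at h1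
    rcases m with _ | m
    · rw [invDim_zero (hT.rep _ ℓ₀ n)]
      exact Nat.zero_le _
    · have e1 : stack E X (i + 1) = E (stack E X i) := rfl
      rw [e1, kunneth_dim hT, kunneth_dim hT]
      have a1 := ih (m + 2) (n - 1) (by omega) (by omega)
      have a2 := ih m (n - 1) (by omega) (by omega)
      have a3 := ih (m + 1) n (by omega) (by omega)
      have a4 := ih (m + 1) (n - 2) (by omega) (by omega)
      omega

/-- from the products with powers of `E` to the powers of `N` -/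
lemma stack_chain (hT : Core T ν E) {U : Subgroup W} {X : C} {ℓ₀ ℓ : Aux p} (k : ℕ) (n₀ : ℤ)
    (hbase : ∀ n, n₀ - k ≤ n → n ≤ n₀ + k →
      ∀ m, (T.H X ℓ₀ n).invDim ν U m ≤ (T.H X ℓ n).invDim ν U m)
    (hdeg : ∀ (i : ℕ) (n : ℤ), (T.H (stack E X i) ℓ n).invDim ν U 1 ≤
      (T.H (stack E X i) ℓ₀ n).invDim ν U 1) (i : ℕ) : ∀ t : ℕ, i + t = k →
      (T.H (stack E X t) ℓ (n₀ + t)).invDim ν U (i + 1) ≤
        (T.H (stack E X t) ℓ₀ (n₀ + t)).invDim ν U (i + 1) := by
  induction i with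
  | zero =>
    intro t _
    exact hdeg t _
  | succ i ih =>
    intro t ht
    have h1 := ih (t + 1) (by omega)
    have e1 : stack E X (t + 1) = E (stack E X t) := rfl
    rw [e1, kunneth_dim hT, kunneth_dim hT] at h1
    have e2 : n₀ + ((t + 1 : ℕ) : ℤ) - 1 = n₀ + t := by push_cast; ring
    rw [e2] at h1
    have a2 := stack_mono hT hbase t i (n₀ + t) (by omega) (by omega)
    have a3 := stack_mono hT hbase t (i + 1) (n₀ + ((t + 1 : ℕ) : ℤ)) (by push_cast; omega)
      (by push_cast; omega)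
    have a4 := stack_mono hT hbase t (i + 1) (n₀ + ((t + 1 : ℕ) : ℤ) - 2) (by push_cast; omega)
      (by push_cast; omega)
    show (T.H (stack E X t) ℓ (n₀ + t)).invDim ν U (i + 2) ≤
      (T.H (stack E X t) ℓ₀ (n₀ + t)).invDim ν U (i + 2)
    omega

/-- a finite extension over which the inertia group acts unipotently -/
lemma exists_field [IsTopologicalGroup W] (h : Core T ν E) (hF : dg ν F = 1) (X : C) (s : Finset ℤ)
    (ℓ₀ ℓ : Aux p) : ∃ U : Subgroup W, IsField ν U ∧ ∀ g ∈ U, g ∈ ν.ker → ∀ n ∈ s,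
      (∀ x, (T.H X ℓ₀ n).ρ g x = x) ∧ ∀ x, (T.H X ℓ n).ρ g x = x := by
  set K : ℤ → Subgroup W := fun n => MonoidHom.ker (toRep (h.rep X ℓ₀ n)) ⊓
    MonoidHom.ker (toRep (h.rep X ℓ n)) with hK
  have hKn : ∀ n, (K n).Normal := fun n => inferInstance
  have hKo : ∀ n, IsOpen (K n : Set W) := fun n => by
    rw [hK, Subgroup.coe_inf]
    exact (isOpen_ker _).inter (isOpen_ker _)
  set I : Subgroup W := ν.ker ⊓ ⨅ n ∈ s, K n with hI
  have hIn' : (⨅ n ∈ s, K n).Normal := Subgroup.normal_iInf_normal fun n =>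
    Subgroup.normal_iInf_normal fun _ => hKn n
  have hIn : I.Normal := inferInstance
  have hIo : IsOpen (I : Set W) := by
    rw [hI, Subgroup.coe_inf]
    refine h.inertia.inter ?_
    have e : ((⨅ n ∈ s, K n : Subgroup W) : Set W) = ⋂ n ∈ s, (K n : Set W) := by
      simp only [Subgroup.coe_iInf]
    rw [e]
    exact isOpen_biInter_finset fun n _ => hKo n
  refine ⟨Subgroup.zpowers F ⊔ I, ⟨Subgroup.isOpen_mono le_sup_right hIo, F,
    (le_sup_left : Subgroup.zpowers F ≤ _) (Subgroup.mem_zpowers F), by omega⟩, ?_⟩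
  intro g hg hν n hn
  rw [← SetLike.mem_coe, Subgroup.mul_normal] at hg
  obtain ⟨z, hz, i, hi, rfl⟩ := Set.mem_mul.1 hg
  obtain ⟨a, rfl⟩ := Subgroup.mem_zpowers_iff.1 hz
  have hi' : i ∈ ν.ker := hi.1
  rw [← dg_eq_zero, dg_mul, dg_zpow, hF, dg_eq_zero.2 hi'] at hν
  have ha : a = 0 := by omega
  rw [ha, zpow_zero, one_mul]
  have h1 : i ∈ K n := (Subgroup.mem_iInf.1 (Subgroup.mem_iInf.1 hi.2 n)) hn
  refine ⟨fun x => ?_, fun x => ?_⟩
  · have h2 := MonoidHom.mem_ker.1 h1.1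
    exact LinearMap.congr_fun h2 x
  · have h2 := MonoidHom.mem_ker.1 h1.2
    exact LinearMap.congr_fun h2 x

variable [IsTopologicalGroup W]

/-- **The degrees and the weight-monodromy conjecture for a second prime.** -/
theorem wm_of_degrees (h : Core T ν E) (hF : dg ν F = 1) {X : C} (hS : SameTraces T ν X)
    {ℓ₀ : Aux p} (hW : WM T F ℓ₀ X) {ℓ : Aux p}
    (hdeg : ∀ (k : ℕ) (U : Subgroup W) (w : W), IsField ν U → IsFrob ν U w → ∀ n,
      degFactor T ν U w (stack E X k) ℓ n ≤ degFactor T ν U w (stack E X k) ℓ₀ n) :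
    WM T F ℓ X := by
  refine wm_of_dim h hF hS hW ℓ fun n j => ?_
  rcases j with _ | k
  · rw [pow_zero, pow_zero]
    have e : ∀ (K V : Type) [Field K] [AddCommGroup V] [Module K V],
        Module.finrank K (LinearMap.ker (1 : Module.End K V)) = 0 := by
      intro K V _ _ _
      have e1 : LinearMap.ker (1 : Module.End K V) = ⊥ := by
        rw [LinearMap.ker_eq_bot]
        exact fun x y hxy => hxy
      rw [e1, finrank_bot]
    rw [e]
    exact Nat.zero_le _
  · obtain ⟨U, hU, hact⟩ := exists_field h hF X (Finset.Icc (n - k) (n + k)) ℓ₀ ℓ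
    obtain ⟨w, hw⟩ := exists_frob hU
    have hbase : ∀ n', n - k ≤ n' → n' ≤ n + k →
        ∀ m, (T.H X ℓ₀ n').invDim ν U m ≤ (T.H X ℓ n').invDim ν U m := by
      intro n' h1 h2 m
      have h3 : n' ∈ Finset.Icc (n - k) (n + (k : ℤ)) := Finset.mem_Icc.2 ⟨h1, h2⟩
      rw [invDim_eq (fun g hg hν => (hact g hg hν n' h3).1),
        invDim_eq (fun g hg hν => (hact g hg hν n' h3).2)]
      exact ker_le_of_wm h hF hS n' hW ℓ m
    have h1 := stack_chain h k n hbase (fun i n' => by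
      have h2 := hdeg i U w hU hw n'
      unfold degFactor DG.factor at h2
      rwa [euler_natDegree (h.rep _ ℓ n') hw.1,
        euler_natDegree (h.rep _ ℓ₀ n') hw.1] at h2) k 0 (by omega)
    have h3 : n ∈ Finset.Icc (n - k) (n + (k : ℤ)) := Finset.mem_Icc.2 ⟨by omega, by omega⟩
    have e1 : stack E X 0 = X := rfl
    rw [e1, Nat.cast_zero, add_zero, invDim_eq (fun g hg hν => (hact g hg hν n h3).1),
      invDim_eq (fun g hg hν => (hact g hg hν n h3).2)] at h1
    exact h1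

/-- Purity for all primes and the products with powers of `E`. -/
theorem good_of_wm (h : Core T ν E) (hF : dg ν F = 1) {X : C} (hS : SameTraces T ν X)
    (hW : ∀ ℓ, WM T F ℓ X) (k : ℕ) (U : Subgroup W) (w : W) (hw : IsFrob ν U w) :
    T.Good ν U w 1 (stack E X k) :=
  (good_iff h hw.1 hw.2.1 1 _).2
    ((stack_iff h hw.1 X k).2 (fun m _ => J_of_wm h hF hS hW hw.1 hw.2.1 m) k le_rfl)

end family

end Pool.Agent.Q219.DU
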