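import Pool.Agent.Q219.DU.Inv
import Pool.Agent.Q219.DU.Main

/-!
# The smallest Euler factor
-/

set_option autoImplicit false
set_option linter.unusedSectionVars false

open Polynomial

namespace Pool.Agent.Q219.DU

open Pool.Agent.Q173.WD Pool.Agent.Q219.DG
open Pool.Agent.Q219.WD (trOn trOn_eq trOn_top exists_common)

section family

variable {p : ℕ} [hp : Fact p.Prime] {W : Type} [Group W] [TopologicalSpace W]
  {ν : W →* Multiplicative ℤ} {C : Type*} {T : Theory p W C} {E : C → C} {F : W} {X : C}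

/-- the divisibility is inherited by the products with powers of `E` -/
lemma stack_dv (hT : Core T ν E) {U : Subgroup W} {w : W} (hw : w ∈ U) {ℓ₀ ℓ : Aux p}
    (hbase : ∀ m n, DV T ν U w ℓ₀ ℓ m X n) (k : ℕ) : ∀ m n, DV T ν U w ℓ₀ ℓ m (stack E X k) n := by
  induction k with
  | zero => exact hbase
  | succ k ih =>
    intro m n
    have e1 : stack E X (k + 1) = E (stack E X k) := rfl
    unfold DV
    rcases m with _ | m
    · rw [(hT.rep _ ℓ₀ n).pol_zero hw, (hT.rep _ ℓ n).pol_zero hw]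
      exact ⟨1, by rw [Polynomial.map_one], by rw [Polynomial.map_one]⟩
    · rw [e1, kunneth_pol hT hw, kunneth_pol hT hw, (hT.rep _ ℓ₀ (n - 1)).tate_pol hw,
        (hT.rep _ ℓ (n - 1)).tate_pol hw, (hT.rep _ ℓ₀ (n - 2)).tate_pol hw,
        (hT.rep _ ℓ (n - 2)).tate_pol hw]
      have a1 : DvP ((T.H (stack E X k) ℓ₀ (n - 1)).pol ν U w (m + 2))
        ((T.H (stack E X k) ℓ (n - 1)).pol ν U w (m + 2)) := ih (m + 2) (n - 1)
      have a2 : DvP ((T.H (stack E X k) ℓ₀ (n - 1)).pol ν U w m)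
        ((T.H (stack E X k) ℓ (n - 1)).pol ν U w m) := ih m (n - 1)
      have a3 : DvP ((T.H (stack E X k) ℓ₀ n).pol ν U w (m + 1))
        ((T.H (stack E X k) ℓ n).pol ν U w (m + 1)) := ih (m + 1) n
      have a4 : DvP ((T.H (stack E X k) ℓ₀ (n - 2)).pol ν U w (m + 1))
        ((T.H (stack E X k) ℓ (n - 2)).pol ν U w (m + 1)) := ih (m + 1) (n - 2)
      exact a1.mul ((a2.scale _).mul (a3.mul (a4.scale _)))

lemma factor_coeff {Y : C} (hT : Core T ν E) {U : Subgroup W} {w : W} (hw : w ∈ U) (ℓ : Aux p)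
    (n : ℤ) : (DG.factor T ν U w Y ℓ n).coeff 0 = 1 := by
  unfold DG.factor Dat.euler
  rw [coeff_zero_reverse]
  exact (hT.rep Y ℓ n).pol_monic hw 1

/-- **The Euler factor for a prime with purity divides the Euler factors for all primes.** -/
theorem min_factor (h : Core T ν E) (hF : dg ν F = 1) (hS : SameTraces T ν X) {ℓ₀ : Aux p}
    (hW : WM T F ℓ₀ X) (k : ℕ) {U : Subgroup W} {w : W} (hw : w ∈ U) (h0 : 0 < dg ν w) (n : ℤ) :
    ∃ R : ℤ[X], IsInt (DG.factor T ν U w (stack E X k) ℓ₀ n) R ∧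
      ∀ ℓ, Divs R (DG.factor T ν U w (stack E X k) ℓ n) ∧
        (IsInt (DG.factor T ν U w (stack E X k) ℓ n) R ↔
          degFactor T ν U w (stack E X k) ℓ n ≤ degFactor T ν U w (stack E X k) ℓ₀ n) := by
  have hdv : ∀ ℓ, ∃ r : ℚ[X], DG.factor T ν U w (stack E X k) ℓ₀ n = r.map (Rat.castHom _) ∧
      r.map (Rat.castHom _) ∣ DG.factor T ν U w (stack E X k) ℓ n := by
    intro ℓ
    obtain ⟨r, h1, h2⟩ := stack_dv h hw (fun m n => dv_of_wm h hF hS n hW ℓ hw h0 m) k 1 n
    refine ⟨r.reverse, ?_, ?_⟩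
    · unfold DG.factor Dat.euler
      rw [h1, reverse_map_inj _ (RingHom.injective _)]
    · obtain ⟨s, hs⟩ := h2
      unfold DG.factor Dat.euler
      rw [hs, reverse_mul_of_domain, reverse_map_inj _ (RingHom.injective _)]
      exact Dvd.intro _ rfl
  obtain ⟨r, hr, -⟩ := hdv ℓ₀
  obtain ⟨R, hR⟩ := int_of_integral (R := r) (B := Ql ℓ₀) (by
    intro i
    rw [← hr]
    exact integral_reverse (integral_resChar _ ((h.rep _ ℓ₀ n).inv_map hw 1)
      (h.int _ ℓ₀ n w h0)) i)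
  have hmap : ∀ ℓ' : Aux p, (R.map (Int.castRingHom ℚ)).map (Rat.castHom (Ql ℓ')) =
      R.map (Int.castRingHom (Ql ℓ')) := by
    intro ℓ'
    rw [Polynomial.map_map]
    congr 1
  have hR0 : IsInt (DG.factor T ν U w (stack E X k) ℓ₀ n) R := by
    unfold IsInt
    rw [hr, ← hR, hmap]
  have hc : R.coeff 0 = 1 := by
    have h1 := factor_coeff (Y := stack E X k) h hw ℓ₀ n
    rw [hR0, coeff_map] at h1
    have h2 : ((R.coeff 0 : ℤ) : Ql ℓ₀) = ((1 : ℤ) : Ql ℓ₀) := by
      rw [Int.cast_one]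
      exact h1
    exact Int.cast_injective h2
  have hdeg : ∀ ℓ' : Aux p, (R.map (Int.castRingHom (Ql ℓ'))).natDegree = R.natDegree :=
    fun ℓ' => natDegree_map_eq_of_injective (Int.castRingHom (Ql ℓ')).injective_int R
  refine ⟨R, hR0, fun ℓ => ?_⟩
  obtain ⟨r', hr', hd⟩ := hdv ℓ
  have e : r' = r := Polynomial.map_injective _ (Rat.castHom (Ql ℓ₀)).injective (by rw [← hr', hr])
  rw [e, ← hR, hmap] at hd
  refine ⟨hd, fun h1 => ?_, fun h1 => ?_⟩
  · unfold degFactor
    rw [h1, hR0, hdeg, hdeg]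
  · unfold degFactor at h1
    rw [hR0, hdeg] at h1
    obtain ⟨s, hs⟩ := hd
    have hs0 : s.coeff 0 = 1 := by
      have h2 := factor_coeff (Y := stack E X k) h hw ℓ n
      rw [hs, mul_coeff_zero, coeff_map, hc, map_one, one_mul] at h2
      exact h2
    have hne : R.map (Int.castRingHom (Ql ℓ)) ≠ 0 := by
      intro h2
      have h3 := congrArg (fun P => P.coeff 0) h2
      simp only [coeff_map, hc, map_one, coeff_zero] at h3
      exact one_ne_zero h3
    have hsne : s ≠ 0 := by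
      intro h2
      rw [h2, coeff_zero] at hs0
      exact zero_ne_one hs0
    rw [hs, natDegree_mul hne hsne, hdeg] at h1
    have h2 : s.natDegree = 0 := by omega
    unfold IsInt
    rw [hs, eq_C_of_natDegree_eq_zero h2, hs0, C_1, mul_one]

/-- The degrees of the Euler factors over the finite extensions, for two primes. -/
lemma degree_le (h : Core T ν E) (hF : dg ν F = 1) (hS : SameTraces T ν X) {ℓ₀ : Aux p}
    (hW : WM T F ℓ₀ X) (k : ℕ) {U : Subgroup W} {w : W} (hw : w ∈ U) (h0 : 0 < dg ν w) (n : ℤ)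
    (ℓ : Aux p) : degFactor T ν U w (stack E X k) ℓ₀ n ≤ degFactor T ν U w (stack E X k) ℓ n := by
  obtain ⟨R, h1, h2⟩ := min_factor h hF hS hW k hw h0 n
  have hdeg : ∀ ℓ' : Aux p, (R.map (Int.castRingHom (Ql ℓ'))).natDegree = R.natDegree :=
    fun ℓ' => natDegree_map_eq_of_injective (Int.castRingHom (Ql ℓ')).injective_int R
  unfold degFactor
  rw [h1, hdeg, ← hdeg ℓ]
  refine natDegree_le_of_dvd (h2 ℓ).1 ?_
  intro h3
  have h4 := factor_coeff (Y := stack E X k) h hw ℓ n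
  rw [h3, coeff_zero] at h4
  exact zero_ne_one h4

/-- **Degrees and independence.** -/
theorem good_iff_degree [IsTopologicalGroup W] (h : Core T ν E) (hF : dg ν F = 1) (hS : SameTraces T ν X) {ℓ₀ : Aux p}
    (hW : WM T F ℓ₀ X) (k : ℕ) {U : Subgroup W} {w : W} (hw : w ∈ U) (h0 : 0 < dg ν w) :
    T.Good ν U w 1 (stack E X k) ↔ ∀ ℓ n,
      degFactor T ν U w (stack E X k) ℓ n ≤ degFactor T ν U w (stack E X k) ℓ₀ n := by
  constructor
  · intro hG ℓ n
    exact (good_degree U w hG ℓ ℓ₀ n).le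
  · intro hd n
    obtain ⟨R, -, h2⟩ := min_factor h hF hS hW k hw h0 n
    exact ⟨R, fun ℓ => (h2 ℓ).2.2 (hd ℓ n)⟩

end family

end Pool.Agent.Q219.DU
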