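import Pool.Agent.Q219.DU.Fac

/-!
# Families of Weil–Deligne representations
-/

set_option autoImplicit false

namespace Pool.Agent.Q219.DU

open Polynomial Pool.Agent.Q173.WD Pool.Agent.Q219.DG

/-- A family of Weil–Deligne representations over the fields `ℚ_ℓ`, `ℓ ≠ p`, in all degrees `n`: the
inertia group acts through finite groups, and the characteristic polynomials of the elements of positive
degree have integral coefficients. (For `H^n(X, ℚ_ℓ)`, `X` a smooth projective variety over `ℚ_p`, these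
properties are known.) -/
structure Fam (p : ℕ) (W : Type) [Group W] [TopologicalSpace W] (ν : W →* Multiplicative ℤ) where
  /-- the representation in degree `n` over `ℚ_ℓ` -/
  H : (ℓ : Aux p) → ℤ → Dat (Ql ℓ) W
  /-- Weil–Deligne representations -/
  rep : ∀ ℓ n, (H ℓ n).IsRep ν p
  /-- the inertia group acts through finite groups -/
  finite : ∀ ℓ n, (Set.range fun g : ν.ker => (H ℓ n).ρ g).Finite
  /-- integrality -/
  int : ∀ ℓ n w, 0 < dg ν w → IntCoeff ((H ℓ n).ρ w).charpoly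

section lin

variable {Ω : Type} [Field Ω] {W : Type} [Group W] {ν : W →* Multiplicative ℤ} {p : ℕ}

lemma finite_tw {A B D : Dat Ω W} (hA : (Set.range fun g : ν.ker => A.ρ g).Finite)
    (hB : (Set.range fun g : ν.ker => B.ρ g).Finite) (hD : (Set.range fun g : ν.ker => D.ρ g).Finite) :
    (Set.range fun g : ν.ker => (A.sum ((B.curve ν p).sum (D.tate ν p))).ρ g).Finite := by
  refine ((hA.prod (hB.prod hD)).image
    (fun x : (A.V →ₗ[Ω] A.V) × ((B.V →ₗ[Ω] B.V) × (D.V →ₗ[Ω] D.V)) =>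
      (x.1.prodMap ((x.2.1.prodMap x.2.1).prodMap x.2.2)))).subset ?_
  rintro _ ⟨g, rfl⟩
  refine ⟨(A.ρ g, (B.ρ g, D.ρ g)), ⟨⟨g, rfl⟩, ⟨g, rfl⟩, ⟨g, rfl⟩⟩, ?_⟩
  have h0 : dg ν (g : W) = 0 := dg_eq_zero.2 g.2
  show (A.ρ g).prodMap (((B.ρ g).prodMap (B.ρ g)).prodMap (D.ρ g)) =
    (A.ρ g).prodMap (((B.ρ g).prodMap ((p : Ω) ^ dg ν (g : W) • B.ρ g)).prodMap
      ((p : Ω) ^ dg ν (g : W) • D.ρ g))
  rw [h0, zpow_zero, one_smul, one_smul]

lemma intCoeff_mul {P Q : Polynomial Ω} (hP : IntCoeff P) (hQ : IntCoeff Q) : IntCoeff (P * Q) := by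
  intro i
  rw [coeff_mul]
  exact IsIntegral.sum _ fun x _ => (hP x.1).mul (hQ x.2)

lemma intCoeff_smul [CharZero Ω] (hp : p ≠ 0) {V : Type} [AddCommGroup V] [Module Ω V] [Module.Finite Ω V]
    {f : V →ₗ[Ω] V} (h : IntCoeff f.charpoly) {d : ℤ} (hd : 0 < d) :
    IntCoeff (((p : Ω) ^ d • f).charpoly) := by
  intro i
  obtain ⟨k, rfl⟩ : ∃ k : ℕ, d = k := ⟨d.toNat, by omega⟩
  have hc : (p : Ω) ≠ 0 := Nat.cast_ne_zero.2 hp
  rw [charpoly_smul _ (zpow_ne_zero _ hc), coeff_scaleRoots]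
  refine (h i).mul (IsIntegral.pow ?_ _)
  rw [zpow_natCast]
  refine IsIntegral.pow ?_ _
  have h1 : IsIntegral ℤ (algebraMap ℤ Ω (p : ℤ)) := isIntegral_algebraMap
  simpa using h1

lemma int_tw [CharZero Ω] (hp : p ≠ 0) {A B D : Dat Ω W} {w : W} (hw : 0 < dg ν w)
    (hA : IntCoeff (A.ρ w).charpoly) (hB : IntCoeff (B.ρ w).charpoly) (hD : IntCoeff (D.ρ w).charpoly) :
    IntCoeff ((A.sum ((B.curve ν p).sum (D.tate ν p))).ρ w).charpoly := by
  have e : ((A.sum ((B.curve ν p).sum (D.tate ν p))).ρ w).charpoly =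
      (A.ρ w).charpoly * (((B.ρ w).charpoly * ((p : Ω) ^ dg ν w • B.ρ w).charpoly) *
        ((p : Ω) ^ dg ν w • D.ρ w).charpoly) := by
    have h1 := LinearMap.charpoly_prodMap (A.ρ w) (((B.ρ w).prodMap ((p : Ω) ^ dg ν w • B.ρ w)).prodMap
      ((p : Ω) ^ dg ν w • D.ρ w))
    have h2 := LinearMap.charpoly_prodMap ((B.ρ w).prodMap ((p : Ω) ^ dg ν w • B.ρ w))
      ((p : Ω) ^ dg ν w • D.ρ w)
    have h3 := LinearMap.charpoly_prodMap (B.ρ w) ((p : Ω) ^ dg ν w • B.ρ w)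
    exact h1.trans (congrArg (fun P => (A.ρ w).charpoly * P)
      (h2.trans (congrArg (fun P => P * ((p : Ω) ^ dg ν w • D.ρ w).charpoly) h3)))
  rw [e]
  exact intCoeff_mul hA (intCoeff_mul (intCoeff_mul hB (intCoeff_smul hp hB hw)) (intCoeff_smul hp hD hw))

end lin

section

variable {p : ℕ} [hp : Fact p.Prime] {W : Type} [Group W] [TopologicalSpace W] {ν : W →* Multiplicative ℤ}

/-- The family of `X × E`, where `X` has the family `A` and `E` is an elliptic curve with split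
multiplicative reduction at `p`, given by the Künneth formula. -/
noncomputable def Fam.timesE (A : Fam p W ν) : Fam p W ν where
  H ℓ n := (A.H ℓ n).sum (((A.H ℓ (n - 1)).curve ν p).sum ((A.H ℓ (n - 2)).tate ν p))
  rep ℓ n := (A.rep ℓ n).sum ((A.rep ℓ (n - 1)).curve.sum (A.rep ℓ (n - 2)).tate)
  finite ℓ n := finite_tw (A.finite ℓ n) (A.finite ℓ (n - 1)) (A.finite ℓ (n - 2))
  int ℓ n w hw := int_tw hp.out.ne_zero hw (A.int ℓ n w hw) (A.int ℓ (n - 1) w hw) (A.int ℓ (n - 2) w hw)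

/-- All families. -/
def families (p : ℕ) (W : Type) [Group W] [TopologicalSpace W] (ν : W →* Multiplicative ℤ) :
    Theory p W (Fam p W ν) where
  H := Fam.H

lemma core (hν : IsOpen (ν.ker : Set W)) : Core (families p W ν) ν Fam.timesE where
  rep X ℓ n := X.rep ℓ n
  inertia := hν
  kunneth _ _ _ := ⟨LinearEquiv.refl _ _, fun _ => ⟨fun _ => rfl, rfl⟩⟩
  int X ℓ n w hw := X.int ℓ n w hw
  finite X ℓ n := X.finite ℓ n

end

end Pool.Agent.Q219.DU
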