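import Pool.Agent.Q219.DU.Two

/-!
# The inertia invariants over a finite extension
-/

set_option autoImplicit false
set_option linter.unusedSectionVars false

open Polynomial

namespace Pool.Agent.Q219.DU

open Pool.Agent.Q173.WD Pool.Agent.Q219.DG
open Pool.Agent.Q219.WD (trOn trOn_eq trOn_top trOn_pow exists_pow_poly ev_comp_pow PureWt.comp_pow
  restrict_pow')
open Pool.Agent.Q226.IL (ev ev_X ev_C wt Mixed MonodromyWeight Killed PureWt killed_of_traces avg Quo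
  avg_apply_fix avg_comm r_avg)

section family

variable {p : ℕ} [hp : Fact p.Prime] {W : Type} [Group W] [TopologicalSpace W]
  {ν : W →* Multiplicative ℤ} {C : Type*} {T : Theory p W C} {E : C → C} {F : W} {X : C}

/-- the traces on the inertia invariants, without purity -/
lemma traces_fixed (h : Core T ν E) (hS : SameTraces T ν X) (n : ℤ) (ℓ₀ ℓ : Aux p) {d : ℕ}
    (hd₀ : ((T.H X ℓ₀ n).N : Module.End _ _) ^ d = 0) (hd : ((T.H X ℓ n).N : Module.End _ _) ^ d = 0)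
    {U : Subgroup W} {w : W} (hwU : w ∈ U) (hw : 0 < dg ν w) : ∃ q : ℚ,
      trOn (T.H X ℓ₀ n |>.ρ w) ((T.H X ℓ₀ n).inv ν U d) = algebraMap ℚ (Ql ℓ₀) q ∧
      trOn (T.H X ℓ n |>.ρ w) ((T.H X ℓ n).inv ν U d) = algebraMap ℚ (Ql ℓ) q := by
  set J := ν.ker ⊓ MonoidHom.ker (toRep (h.rep X ℓ₀ n)) ⊓
    MonoidHom.ker (toRep (h.rep X ℓ n)) with hJ
  obtain ⟨I, hI⟩ : ∃ I : Subgroup W, I = U ⊓ ν.ker := ⟨_, rfl⟩
  have hfin : Finite (Quo I J) := finite_quo h X n ℓ₀ ℓ (by rw [hI]; exact inf_le_right)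
  have : Fintype (Quo I J) := Fintype.ofFinite _
  have h1 : ∀ x : Quo I J, ∃ q : ℚ,
      trOn (T.H X ℓ₀ n |>.ρ (w * ((x.out : I) : W))) (LinearMap.ker ((T.H X ℓ₀ n).N ^ d)) =
        algebraMap ℚ (Ql ℓ₀) q ∧
      trOn (T.H X ℓ n |>.ρ (w * ((x.out : I) : W))) (LinearMap.ker ((T.H X ℓ n).N ^ d)) =
        algebraMap ℚ (Ql ℓ) q := by
    intro x
    have hle : I ≤ ν.ker := by
      rw [hI]
      exact inf_le_right
    have h2 : ((x.out : I) : W) ∈ ν.ker := hle (x.out : I).2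
    obtain ⟨q, h3, h4⟩ := hS.pair (w := w * ((x.out : I) : W)) n (by
      rw [dg_mul, dg_eq_zero.2 h2, add_zero]
      exact hw) ℓ₀ ℓ
    exact ⟨q, by rw [trOn_top (by rw [hd₀, LinearMap.ker_zero]), h3],
      by rw [trOn_top (by rw [hd, LinearMap.ker_zero]), h4]⟩
  choose q hq hq' using h1
  refine ⟨(Fintype.card (Quo I J) : ℚ)⁻¹ * ∑ x : Quo I J, q x, ?_, ?_⟩
  · rw [trace_inv (h.rep X ℓ₀ n) hI (J := J) (inf_le_left.trans inf_le_right) hwU, map_mul,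
      map_inv₀, map_natCast, map_sum, Finset.sum_congr rfl fun x _ => hq x]
  · rw [trace_inv (h.rep X ℓ n) hI (J := J) inf_le_right hwU, map_mul,
      map_inv₀, map_natCast, map_sum, Finset.sum_congr rfl fun x _ => hq' x]

/-- **The polynomial for a prime with purity divides the polynomials for the other primes.** -/
theorem dv_of_wm (h : Core T ν E) (hF : dg ν F = 1) (hS : SameTraces T ν X) (n : ℤ)
    {ℓ₀ : Aux p} (hW : WM T F ℓ₀ X) (ℓ : Aux p) {U : Subgroup W} {w : W} (hwU : w ∈ U)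
    (hw : 0 < dg ν w) (j : ℕ) : DV T ν U w ℓ₀ ℓ j X n := by
  obtain ⟨hmix, hM⟩ := hW n
  have r₀ := h.rep X ℓ₀ n
  have r := h.rep X ℓ n
  obtain ⟨f, hf⟩ : ∃ f : ℕ, dg ν w = f := ⟨(dg ν w).toNat, by omega⟩
  have hf0 : 0 < f := by omega
  obtain ⟨d₀, hd₀⟩ := nil_of_rep r₀
  obtain ⟨d₁, hd₁⟩ := nil_of_rep r
  have e₀ : ((T.H X ℓ₀ n).N : Module.End _ _) ^ (d₀ + d₁) = 0 := by rw [pow_add, hd₀, zero_mul]
  have e₁ : ((T.H X ℓ n).N : Module.End _ _) ^ (d₀ + d₁) = 0 := by rw [pow_add, hd₁, mul_zero]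
  have hq : 2 ≤ p ^ f := hp.out.two_le.trans (Nat.le_self_pow hf0.ne' p)
  -- purity
  have hfin : Finite (Quo (U ⊓ ν.ker) (ν.ker ⊓ MonoidHom.ker (toRep r₀))) := by
    have h1 := finite_quo h X n ℓ₀ ℓ₀ (I := U ⊓ ν.ker) inf_le_right
    have h2 : ν.ker ⊓ MonoidHom.ker (toRep r₀) ⊓ MonoidHom.ker (toRep r₀) =
        ν.ker ⊓ MonoidHom.ker (toRep r₀) := by rw [inf_assoc, inf_idem]
    rwa [h2] at h1
  have hP := pure_inv r₀ (h.finite X ℓ₀ n) hF hM hwU hf0 hf e₀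
  -- weights
  obtain ⟨s, hs, hws⟩ := exists_power r₀ (h.finite X ℓ₀ n) hF hf
  have hmix' : Mixed (p ^ f) (((T.H X ℓ₀ n).ρ w).restrict (r₀.inv_map hwU (d₀ + d₁))) :=
    mixed_restrict _ (mixed_of (Nat.mul_pos hf0 hs) hs hws.symm (by rw [← pow_mul]) hmix)
  have hτ : ∀ m : ℕ, ∃ τ : ℚ,
      LinearMap.trace (Ql ℓ₀) _
        (((T.H X ℓ₀ n).ρ w).restrict (r₀.inv_map hwU (d₀ + d₁)) ^ (m + 1)) =
          algebraMap ℚ (Ql ℓ₀) τ ∧
      LinearMap.trace (Ql ℓ) _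
        (((T.H X ℓ n).ρ w).restrict (r.inv_map hwU (d₀ + d₁)) ^ (m + 1)) =
          algebraMap ℚ (Ql ℓ) τ := by
    intro m
    obtain ⟨q, h1, h2⟩ := traces_fixed h hS n ℓ₀ ℓ e₀ e₁ (U.pow_mem hwU (m + 1)) (by
      rw [dg_pow]
      positivity)
    refine ⟨q, ?_, ?_⟩
    · rw [trOn_pow (r₀.inv_map hwU (d₀ + d₁)) (m + 1), ← rho_pow r₀, h1]
    · rw [trOn_pow (r.inv_map hwU (d₀ + d₁)) (m + 1), ← rho_pow r, h2]
  have hτ' := hτ
  choose τ h1 h2 using hτ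
  have hu : IsUnit (((T.H X ℓ n).ρ w).restrict (r.inv_map hwU (d₀ + d₁)) :
      Module.End (Ql ℓ) ((T.H X ℓ n).inv ν U (d₀ + d₁))) := by
    rw [LinearMap.isUnit_iff_ker_eq_bot, LinearMap.ker_eq_bot]
    intro x y hxy
    refine Subtype.ext ?_
    have h3 := congrArg Subtype.val hxy
    have h4 : (T.H X ℓ n).ρ w (x : (T.H X ℓ n).V) = (T.H X ℓ n).ρ w (y : (T.H X ℓ n).V) := h3
    have h5 := congrArg ((T.H X ℓ n).ρ w⁻¹) h4
    rwa [← r.mul', ← r.mul', inv_mul_cancel, r.one', r.one'] at h5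
  obtain ⟨S, g, hK, hK'⟩ := killed_of_traces hu h1 h2 hmix'
  have hrel : ∀ (ℓ' : Aux p) (e : ((T.H X ℓ' n).N : Module.End _ _) ^ (d₀ + d₁) = 0),
      (T.H X ℓ' n).N.restrict (N_inv (U := U) (h.rep X ℓ' n) e) *
        ((T.H X ℓ' n).ρ w).restrict ((h.rep X ℓ' n).inv_map hwU (d₀ + d₁)) =
      ((p ^ f : ℕ) : Ql ℓ') • (((T.H X ℓ' n).ρ w).restrict
        ((h.rep X ℓ' n).inv_map hwU (d₀ + d₁)) *
          (T.H X ℓ' n).N.restrict (N_inv (U := U) (h.rep X ℓ' n) e)) := by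
    intro ℓ' e
    ext x
    have h3 := (h.rep X ℓ' n).rel' w (x : (T.H X ℓ' n).V)
    rw [hf, zpow_natCast] at h3
    rw [Nat.cast_pow]
    exact h3
  obtain ⟨R, h6, h7⟩ := exists_dvd hq hK hK' (hrel ℓ₀ e₀) (hrel ℓ e₁) hP hτ' j
  rw [pol_ker_inv r₀ hwU e₀ j (ker_st (hrel ℓ₀ e₀) j)] at h6
  rw [pol_ker_inv r hwU e₁ j (ker_st (hrel ℓ e₁) j)] at h7
  have c₀ := r₀.pol_coeff hwU j
  have c := r.pol_coeff hwU j
  refine ⟨R.reverse, ?_, ?_⟩
  · rw [← reverse_rev c₀, h6, reverse_map_inj _ (algebraMap ℚ (Ql ℓ₀)).injective]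
    congr 1
  · obtain ⟨s, hs⟩ := h7
    rw [← reverse_rev c, hs, reverse_mul_of_domain,
      reverse_map_inj _ (algebraMap ℚ (Ql ℓ)).injective]
    refine Dvd.intro s.reverse ?_
    congr 2

end family

end Pool.Agent.Q219.DU
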